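import Mathlib

/-!
Project QD, piece TC: the assignment of the pairs of positions to the classes.
-/

set_option autoImplicit false

namespace Pool.Agent.Helper69.QD

private theorem TwoC_card_pairs (k : ℕ) :
    Nat.card {p : Fin k × Fin k // p.1 < p.2} = k * (k - 1) / 2 := by
  have e : {p : Fin k × Fin k // p.1 < p.2} ≃ Σ j : Fin k, Fin j.val :=
    { toFun := fun p => ⟨p.1.2, ⟨p.1.1.val, p.2⟩⟩
      invFun := fun s => ⟨(⟨s.2.val, s.2.isLt.trans s.1.isLt⟩, s.1), s.2.isLt⟩
      left_inv := fun p => rfl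
      right_inv := fun s => rfl }
  rw [Nat.card_congr e, Nat.card_sigma]
  simp only [Nat.card_eq_fintype_card, Fintype.card_fin]
  rw [Fin.sum_univ_eq_sum_range (fun j => j) k, Finset.sum_range_id]

/-- The assignment of the pairs of positions to the classes: `h` base blocks, `e` classes, each class
gets `l'` pairs, `l' = g h`, `k (k - 1) / 2 = g e`. A bijection of
`Fin h × {p : Fin k × Fin k // p.1 < p.2}` (`Fintype.card` of the second factor is `k (k - 1) / 2`,
compare `cyclo_card_pairs` in `Helper69/WV/Cyclo.lean`) and `Fin l' × Fin e`. -/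
theorem two_classes {k l' g h e : ℕ} (hl : l' = g * h) (hC : k * (k - 1) / 2 = g * e)
    (he : 0 < e) : ∃ c : Fin h → Fin k → Fin k → Fin e, (∀ a i j, c a i j = c a j i) ∧
      ∀ κ, Nat.card {p : Fin h × Fin k × Fin k // p.2.1 ≠ p.2.2 ∧ c p.1 p.2.1 p.2.2 = κ} =
        2 * l' := by
  classical
  have hcard : Nat.card (Fin h × {p : Fin k × Fin k // p.1 < p.2}) =
      Nat.card (Fin l' × Fin e) := by
    rw [Nat.card_prod, Nat.card_prod, TwoC_card_pairs, hC, hl]
    simp only [Nat.card_eq_fintype_card, Fintype.card_fin]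
    ring
  obtain ⟨E⟩ : Nonempty ((Fin h × {p : Fin k × Fin k // p.1 < p.2}) ≃ (Fin l' × Fin e)) := by
    rw [Nat.card_eq_fintype_card, Nat.card_eq_fintype_card] at hcard
    exact Fintype.card_eq.1 hcard
  let c : Fin h → Fin k → Fin k → Fin e := fun a i j =>
    if h1 : i < j then (E (a, ⟨(i, j), h1⟩)).2
    else if h2 : j < i then (E (a, ⟨(j, i), h2⟩)).2 else ⟨0, he⟩
  have c1 : ∀ a i j (h1 : i < j), c a i j = (E (a, ⟨(i, j), h1⟩)).2 := by
    intro a i j h1
    simp only [c, dif_pos h1]
  have c2 : ∀ a i j (h1 : j < i), c a i j = (E (a, ⟨(j, i), h1⟩)).2 := by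
    intro a i j h1
    simp only [c, dif_neg (not_lt.2 h1.le), dif_pos h1]
  refine ⟨c, ?_, ?_⟩
  · intro a i j
    rcases lt_trichotomy i j with h1 | h1 | h1
    · rw [c1 a i j h1, c2 a j i h1]
    · rw [h1]
    · rw [c2 a i j h1, c1 a j i h1]
  · intro κ
    have hL : Nat.card {x : Fin h × {p : Fin k × Fin k // p.1 < p.2} // (E x).2 = κ} = l' := by
      have e1 : {x : Fin h × {p : Fin k × Fin k // p.1 < p.2} // (E x).2 = κ} ≃ Fin l' :=
        { toFun := fun x => (E x.1).1
          invFun := fun t => ⟨E.symm (t, κ), by rw [Equiv.apply_symm_apply]⟩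
          left_inv := by
            rintro ⟨x, hx⟩
            apply Subtype.ext
            change E.symm ((E x).1, κ) = x
            rw [← hx]
            exact E.symm_apply_apply x
          right_inv := by
            intro t
            change (E (E.symm (t, κ))).1 = t
            rw [Equiv.apply_symm_apply] }
      rw [Nat.card_congr e1, Nat.card_eq_fintype_card, Fintype.card_fin]
    have e2 : {p : Fin h × Fin k × Fin k // p.2.1 ≠ p.2.2 ∧ c p.1 p.2.1 p.2.2 = κ} ≃
        {x : Fin h × {p : Fin k × Fin k // p.1 < p.2} // (E x).2 = κ} × Bool :=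
      { toFun := fun p =>
          if h1 : p.1.2.1 < p.1.2.2 then
            (⟨(p.1.1, ⟨(p.1.2.1, p.1.2.2), h1⟩), by rw [← c1 _ _ _ h1]; exact p.2.2⟩, false)
          else
            (⟨(p.1.1, ⟨(p.1.2.2, p.1.2.1), lt_of_le_of_ne (not_lt.1 h1) p.2.1.symm⟩), by
              rw [← c2 _ _ _ (lt_of_le_of_ne (not_lt.1 h1) p.2.1.symm)]; exact p.2.2⟩, true)
        invFun := fun y =>
          match y with
          | (x, false) => ⟨(x.1.1, x.1.2.1.1, x.1.2.1.2), x.1.2.2.ne, by
              change c x.1.1 x.1.2.1.1 x.1.2.1.2 = κ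
              rw [c1 _ _ _ x.1.2.2]; exact x.2⟩
          | (x, true) => ⟨(x.1.1, x.1.2.1.2, x.1.2.1.1), x.1.2.2.ne', by
              change c x.1.1 x.1.2.1.2 x.1.2.1.1 = κ
              rw [c2 _ _ _ x.1.2.2]; exact x.2⟩
        left_inv := by
          rintro ⟨⟨a, i, j⟩, hne, hc⟩
          by_cases h1 : i < j
          · simp only [h1, dite_true]
          · simp only [h1, dite_false]
        right_inv := by
          rintro ⟨⟨⟨a, ⟨⟨i, j⟩, hij⟩⟩, hx⟩, b⟩
          have hij' : i < j := hij
          cases b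
          · simp only [hij', dite_true]
          · simp only [not_lt.2 hij'.le, dite_false] }
    rw [Nat.card_congr e2, Nat.card_prod, hL, Nat.card_eq_fintype_card (α := Bool),
      Fintype.card_bool, mul_comm]

end Pool.Agent.Helper69.QD
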