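import Pool.Agent.Helper69.QD.PX
import Pool.Agent.Helper69.QD.TwoC

/-!
Project QD, piece PT: 2-designs on the fields of characteristic two.
-/

set_option autoImplicit false

namespace Pool.Agent.Helper69.QD

open Pool.Agent.Helper69.WV Pool.Agent.Helper53.BN Pool.Agent.Helper69.QB Pool.Agent.Helper69.QC

private theorem Two_subgroup {F : Type} [Field F] [Finite F] {e : ℕ} (hd : e ∣ Nat.card F - 1) :
    ∃ H : Subgroup Fˣ, H.index = e := by
  refine ⟨(powMonoidHom e : Fˣ →* Fˣ).range, ?_⟩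
  rw [IsCyclic.index_powMonoidHom_range, Nat.card_units]
  exact Nat.gcd_eq_right hd

private theorem Two_cc {F : Type} [Field F] [Finite F] (H : Subgroup Fˣ) {h k : ℕ}
    (X : Fin h → Fin k → F) (C : Fin h → Fin k → Fin k → Fˣ ⧸ H)
    (hX : ∀ a i j, i ≠ j → ∃ u : Fˣ, (u : Fˣ ⧸ H) = C a i j ∧ X a j - X a i = u)
    {x y : F} (δ : Fˣ) (hδ : (δ : F) = y - x) :
    cc (fun (b : Fin h × H × F) (i : Fin k) => ((b.2.1 : Fˣ) : F) * X b.1 i + b.2.2) x y =
      Nat.card {p : Fin h × Fin k × Fin k // p.2.1 ≠ p.2.2 ∧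
        C p.1 p.2.1 p.2.2 = (δ : Fˣ ⧸ H)} := by
  unfold cc
  have key : ∀ (s : Fˣ) (t a b : F), (s : F) * a + t = x → (s : F) * b + t = y →
      (s : F) * (b - a) = δ := by
    intro s t a b h1 h2
    rw [hδ, ← h1, ← h2]
    ring
  refine Nat.card_congr (Equiv.ofBijective (fun p =>
    ⟨(p.1.1.1, p.1.2.1, p.1.2.2), ?_, ?_⟩) ⟨?_, ?_⟩)
  · intro he
    have h1 := key _ _ _ _ p.2.1 p.2.2
    change p.1.2.1 = p.1.2.2 at he
    rw [he, sub_self, mul_zero] at h1
    exact δ.ne_zero h1.symm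
  · have hne : p.1.2.1 ≠ p.1.2.2 := by
      intro he
      have h1 := key _ _ _ _ p.2.1 p.2.2
      rw [he, sub_self, mul_zero] at h1
      exact δ.ne_zero h1.symm
    obtain ⟨u, hu1, hu2⟩ := hX p.1.1.1 _ _ hne
    have h1 := key _ _ _ _ p.2.1 p.2.2
    rw [hu2] at h1
    have h2 : (p.1.1.2.1 : Fˣ) * u = δ := Units.ext (by rw [Units.val_mul]; exact h1)
    change C p.1.1.1 p.1.2.1 p.1.2.2 = _
    rw [← hu1, QuotientGroup.eq, ← h2, mul_comm, mul_assoc, mul_inv_cancel, mul_one]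
    exact p.1.1.2.1.2
  · rintro ⟨⟨⟨a, s, t⟩, i, j⟩, h1, h2⟩ ⟨⟨⟨a', s', t'⟩, i', j'⟩, h1', h2'⟩ heq
    have e1 := key _ _ _ _ h1 h2
    have e2 := key _ _ _ _ h1' h2'
    simp only [Subtype.mk.injEq, Prod.mk.injEq] at heq
    obtain ⟨rfl, rfl, rfl⟩ := heq
    have hd : X a j - X a i ≠ 0 := by
      intro h0
      change ((s : Fˣ) : F) * (X a j - X a i) = δ at e1
      rw [h0, mul_zero] at e1
      exact δ.ne_zero e1.symm
    have hs : s = s' := Subtype.ext (Units.ext (mul_right_cancel₀ hd (e1.trans e2.symm)))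
    subst hs
    have ht : t = t' := add_left_cancel (h1.trans h1'.symm)
    subst ht
    rfl
  · rintro ⟨⟨a, i, j⟩, hij, hC⟩
    obtain ⟨u, hu1, hu2⟩ := hX a i j hij
    have hm : u⁻¹ * δ ∈ H := by
      rw [← QuotientGroup.eq, hu1]
      exact hC
    refine ⟨⟨⟨(a, ⟨u⁻¹ * δ, hm⟩, x - ((u⁻¹ * δ : Fˣ) : F) * X a i), i, j⟩, ?_, ?_⟩, rfl⟩
    · change ((u⁻¹ * δ : Fˣ) : F) * X a i + (x - ((u⁻¹ * δ : Fˣ) : F) * X a i) = x
      ring
    · change ((u⁻¹ * δ : Fˣ) : F) * X a j + (x - ((u⁻¹ * δ : Fˣ) : F) * X a i) = y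
      have h1 : ((u⁻¹ * δ : Fˣ) : F) * (X a j - X a i) = δ := by
        rw [hu2, ← Units.val_mul, mul_comm, mul_inv_cancel_left]
      have h2 : ((u⁻¹ * δ : Fˣ) : F) * X a j + (x - ((u⁻¹ * δ : Fˣ) : F) * X a i) =
          ((u⁻¹ * δ : Fˣ) : F) * (X a j - X a i) + x := by ring
      rw [h2, h1, hδ]
      ring

private theorem Two_field {k l' g h e q1 : ℕ} (hk : 2 ≤ k) (hl : l' = g * h)
    (hC : k * (k - 1) / 2 = g * e) (he : 0 < e)
    (hq1 : ∀ (F : Type) (_ : Field F) (_ : Finite F) (H : Subgroup Fˣ),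
      H.index = e → q1 ≤ Nat.card F → ∀ c : Fin k → Fin k → Fˣ ⧸ H, ∃ x : Fin k → F,
        ∀ i j, i < j → ∃ u : Fˣ, (u : Fˣ ⧸ H) = c i j ∧ x j - x i = u)
    (F : Type) [Field F] [Finite F] [CharP F 2] (hF : q1 ≤ Nat.card F)
    (hd : e ∣ Nat.card F - 1) : PX k (2 * l') (Nat.card F) := by
  classical
  obtain ⟨c, hsym, hc⟩ := two_classes (k := k) hl hC he
  obtain ⟨H, hH⟩ := Two_subgroup hd
  have : Fintype (Fˣ ⧸ H) := Fintype.ofFinite _
  have hQ : Fintype.card (Fˣ ⧸ H) = e := by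
    rw [← Nat.card_eq_fintype_card]
    exact hH
  let σ : Fin e ≃ Fˣ ⧸ H := (Fintype.equivFinOfCardEq hQ).symm
  choose X hX using fun a => hq1 F inferInstance inferInstance H hH hF (fun i j => σ (c a i j))
  have hX2 : ∀ a i j, i ≠ j → ∃ u : Fˣ, (u : Fˣ ⧸ H) = σ (c a i j) ∧ X a j - X a i = u := by
    intro a i j hij
    rcases lt_or_gt_of_ne hij with h | h
    · exact hX a i j h
    · obtain ⟨u, hu1, hu2⟩ := hX a j i h
      refine ⟨u, ?_, ?_⟩
      · rw [hsym a i j]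
        exact hu1
      · rw [← neg_sub, hu2]
        exact CharTwo.neg_eq _
  have hcardH : Nat.card H * e = Nat.card F - 1 := by
    rw [← hH, H.card_mul_index, Nat.card_units]
  refine ⟨Nat.card (Fin h × H × F), DC_id_iff.1 ⟨Fin h × H × F, inferInstance,
    fun b i => ((b.2.1 : Fˣ) : F) * X b.1 i + b.2.2, ?_, ?_, ?_, rfl⟩, ?_⟩
  · intro b
    have hne : (⟨0, by omega⟩ : Fin k) ≠ ⟨1, by omega⟩ := by
      intro h0
      exact absurd (congrArg Fin.val h0) (by norm_num)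
    refine ⟨⟨0, by omega⟩, ⟨1, by omega⟩, fun h0 => ?_⟩
    have h1 := mul_left_cancel₀ (Units.ne_zero _) (add_right_cancel h0)
    obtain ⟨u, -, hu⟩ := hX2 b.1 _ _ hne
    rw [h1, sub_self] at hu
    exact u.ne_zero hu.symm
  · intro x y hxy
    have hδ0 : y - x ≠ 0 := sub_ne_zero.2 (Ne.symm hxy)
    rw [Two_cc H X (fun a i j => σ (c a i j)) hX2 (Units.mk0 (y - x) hδ0) (Units.val_mk0 hδ0)]
    generalize ((Units.mk0 (y - x) hδ0 : Fˣ) : Fˣ ⧸ H) = κ
    rw [← hc (σ.symm κ)]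
    refine Nat.card_congr (Equiv.subtypeEquivRight ?_)
    rintro ⟨a, i, j⟩
    simp only [Equiv.eq_symm_apply]
  · intro x y hxy h0
    exact absurd h0 hxy
  · rw [Nat.card_prod, Nat.card_prod, Nat.card_eq_fintype_card (α := Fin h), Fintype.card_fin,
      ← hcardH]
    have hev : k * (k - 1) = 2 * (g * e) := by
      rw [← hC]
      have h2 : Even (k * (k - 1)) := by
        have := Nat.even_mul_succ_self (k - 1)
        have hk1 : k - 1 + 1 = k := by omega
        rw [hk1, mul_comm] at this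
        exact this
      exact (Nat.mul_div_cancel' h2.two_dvd).symm
    rw [hev, hl]
    ring

/-- Proof: `F` is a field with `2 ^ n` elements (`GaloisField 2 n`), `H` the subgroup of index `e` of
the cyclic group of the units (compare `cyclo_subgroup` in `Helper69/WV/Cyclo.lean`), `Fin e ≃ Fˣ ⧸ H`.
`greedy` gives for every base block `a` points `x a : Fin k → F` with `x a j - x a i` in the class
`c a i j` for `i < j`; the characteristic is two, so this holds for all `i ≠ j`. The blocks are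
`s x a i + t` for `a : Fin h`, `s ∈ H`, `t ∈ F`. For `x ≠ y` the number of `(a, s, t, i, j)` with
`s x a i + t = x`, `s x a j + t = y` is the number of `(a, i, j)`, `i ≠ j`, for which the class of
`x a i - x a j` is the class of `x - y` (`s = (x - y) / (x a i - x a j)`), which is `2 l'`. The number
of blocks is `h ((2 ^ n - 1) / e) 2 ^ n`. Compare `Helper69/QB/CycGen.lean`. -/
theorem px_two {k l' g h e : ℕ} (hk : 2 ≤ k) (hl : l' = g * h) (hC : k * (k - 1) / 2 = g * e)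
    (he : 0 < e) : ∃ n0, ∀ n : ℕ, n0 ≤ n → e ∣ 2 ^ n - 1 → PX k (2 * l') (2 ^ n) := by
  obtain ⟨q1, hq1⟩ := greedy k e he
  refine ⟨max q1 1, fun n hn hd => ?_⟩
  have hn1 : 1 ≤ n := (le_max_right _ _).trans hn
  have hnq : q1 ≤ 2 ^ n := (le_max_left q1 1).trans (hn.trans Nat.lt_two_pow_self.le)
  have hcard : Nat.card (GaloisField 2 n) = 2 ^ n := GaloisField.card 2 n (by omega)
  have hF : Finite (GaloisField 2 n) := Nat.finite_of_card_ne_zero (by rw [hcard]; positivity)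
  have h := Two_field hk hl hC he hq1 (GaloisField 2 n) (by rw [hcard]; exact hnq)
    (by rw [hcard]; exact hd)
  rwa [hcard] at h

end Pool.Agent.Helper69.QD
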