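import Pool.Agent.Helper69.QD.ChA
import Pool.Agent.Helper69.QD.Two

/-!
Project QD, piece CB: the choice of the order `M` of a 2-design, second case.
-/

set_option autoImplicit false

namespace Pool.Agent.Helper69.QD

open Pool.Agent.Helper69.WV Pool.Agent.Helper53.BN Pool.Agent.Helper69.QB Pool.Agent.Helper69.QC

/-- Proof. If there is no even `v > 0` with `k - 1 ∣ l (v - 1)` take `M` from `choose_A`. Otherwise let
`g1 = gcd (k - 1, l)`, `x = (k - 1) / g1`; `x ∣ v - 1` (`dvd_aux`) is odd, so `g1 = 2 g` is even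
(`k - 1` is even), `l = 2 g l1`, `k (k - 1) / 2 = g (k x)`. `px_two` with `l' = g l1`, `h = l1`,
`e = k x` (odd) gives `n0`; let `n = φ (k x) (n0 + 1)`; `k x ∣ 2 ^ n - 1` (Euler,
`Nat.ModEq.pow_totient`), so `PX k l (2 ^ n)`. `good_prime` with `a = 2 ^ n k`, `κ = x`, `c = 2 k`:
`x ∣ 2 ^ n k - 1` since `2 ^ n k - 1 = (2 ^ n - 1) k + (k - 1)`; the primes dividing `2 k` divide
`2 ^ n k`. It gives a large prime `p = 1 mod 2 k x`, `PX k l p` by `px_prime` with `h = 2 l1`,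
`e = k x`. `M = 2 ^ n (k p)` with `px_mul` twice (`hTD (k + 1)`, `hTD (2 ^ n + 1)`); `solve_u`. -/
theorem choose_B (k l w B : ℕ) (hk : 3 ≤ k) (hko : Odd k) (hl : 1 ≤ l) (hw : 0 < w) :
    ∃ M, B ≤ M ∧ PX k l M ∧ ∀ v, 0 < v → k - 1 ∣ l * (v - 1) → Even v →
      ∃ u, (M - 1) * u + 1 ≡ v [MOD M * w] := by
  by_cases hex : ∃ v, 0 < v ∧ k - 1 ∣ l * (v - 1) ∧ Even v
  swap
  · obtain ⟨M, hB, hM, _⟩ := choose_A k l w B hk hl hw
    exact ⟨M, hB, hM, fun v h0 h1 h2 => absurd ⟨v, h0, h1, h2⟩ hex⟩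
  obtain ⟨v0, hv0, hdv0, hev0⟩ := hex
  have hk1 : 0 < k - 1 := by omega
  have hg1p : 0 < Nat.gcd (k - 1) l := Nat.gcd_pos_of_pos_left _ hk1
  obtain ⟨x, hx⟩ := Nat.gcd_dvd_left (k - 1) l
  obtain ⟨l1, hl1⟩ := Nat.gcd_dvd_right (k - 1) l
  have hxd : (k - 1) / Nat.gcd (k - 1) l = x := by
    rw [Nat.div_eq_iff_eq_mul_right hg1p (Nat.gcd_dvd_left _ _)]
    exact hx
  have hxp : 0 < x := by
    rcases Nat.eq_zero_or_pos x with h | h
    · rw [h, Nat.mul_zero] at hx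
      omega
    · exact h
  have hxv : ∀ v, k - 1 ∣ l * (v - 1) → x ∣ v - 1 := fun v hv => hxd ▸ dvd_aux hk1 hv
  have hxo : ¬ 2 ∣ x := fun h => by
    have h1 : 2 ∣ v0 - 1 := h.trans (hxv v0 hdv0)
    have h2 : 2 ∣ v0 := hev0.two_dvd
    omega
  have hg2 : 2 ∣ Nat.gcd (k - 1) l := by
    have h1 : 2 ∣ k - 1 := by
      obtain ⟨j, hj⟩ := hko
      exact ⟨j, by omega⟩
    rw [hx] at h1
    exact ((Nat.Prime.dvd_mul Nat.prime_two).1 h1).resolve_right hxo
  obtain ⟨g, hg⟩ := hg2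
  rw [hg] at hx hl1
  have hk2 : ¬ 2 ∣ k := by
    obtain ⟨j, hj⟩ := hko
    omega
  have hC : k * (k - 1) / 2 = g * (k * x) := by
    have h1 : k * (k - 1) = 2 * (g * (k * x)) := by
      rw [hx]
      ring
    rw [h1, Nat.mul_div_cancel_left _ (by norm_num)]
  have hkx : 0 < k * x := Nat.mul_pos (by omega) hxp
  have hcop : Nat.Coprime 2 (k * x) := by
    rw [Nat.Prime.coprime_iff_not_dvd Nat.prime_two]
    intro h
    exact ((Nat.Prime.dvd_mul Nat.prime_two).1 h).elim hk2 hxo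
  obtain ⟨n0, hn0⟩ := px_two (k := k) (l' := g * l1) (g := g) (h := l1) (e := k * x) (by omega)
    rfl hC hkx
  set n : ℕ := (k * x).totient * (n0 + 1) with hn
  have htot : 0 < (k * x).totient := Nat.totient_pos.2 hkx
  have hn0n : n0 + 1 ≤ n := Nat.le_mul_of_pos_left _ htot
  have hE : k * x ∣ 2 ^ n - 1 := by
    have h1 : 2 ^ n ≡ 1 [MOD k * x] := by
      have h2 := (Nat.ModEq.pow_totient hcop).pow (n0 + 1)
      rwa [← pow_mul, one_pow] at h2
    exact (Nat.modEq_iff_dvd' (Nat.one_le_two_pow)).1 h1.symm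
  have hX2 : PX k l (2 ^ n) := by
    have h1 := hn0 n (by omega) hE
    have h2 : 2 * (g * l1) = l := by
      rw [hl1]
      ring
    rwa [h2] at h1
  have h2n : 2 ≤ 2 ^ n := by
    calc 2 = 2 ^ 1 := by norm_num
      _ ≤ 2 ^ n := Nat.pow_le_pow_right (by norm_num) (by omega)
  obtain ⟨nk, hnk⟩ := hTD (k + 1)
  obtain ⟨n2, hn2⟩ := hTD (2 ^ n + 1)
  obtain ⟨q0, hq0⟩ := px_prime (k := k) (l := l) (g := g) (h := 2 * l1) (e := k * x) (by omega)
    (by rw [hl1]; ring) hC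
  have hxa : x ∣ 2 ^ n * k - 1 := by
    have h1 : 2 ^ n * k - 1 = (2 ^ n - 1) * k + (k - 1) := by
      have h3 : (2 ^ n - 1) * k = 2 ^ n * k - k := by rw [Nat.sub_mul, Nat.one_mul]
      have h4 : k ≤ 2 ^ n * k := Nat.le_mul_of_pos_left _ (by omega)
      omega
    rw [h1]
    refine Nat.dvd_add (Dvd.dvd.mul_right ((Dvd.intro_left k rfl).trans hE) k) ?_
    exact ⟨2 * g, by rw [hx]; ring⟩
  obtain ⟨p, hpp, hpB, hpm, hpg⟩ := good_prime (a := 2 ^ n * k) (c := 2 * k) (κ := x) (w := w)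
    (Nat.mul_pos (by omega) (by omega)) hxp (by omega) hw hxa (by
      rw [Nat.mul_left_comm]
      exact even_two_mul _) (fun r hr h => by
      rcases (Nat.Prime.dvd_mul hr).1 h with h | h
      · have h1 : 2 ∣ 2 ^ n := dvd_pow_self 2 (by omega)
        exact (h.trans h1).mul_right k
      · exact h.mul_left _) (B + nk + n2 + q0)
  have hXp : PX k l p := by
    refine hq0 p hpp (by omega) ?_
    have h1 : x * (2 * k) = 2 * (k * x) := by ring
    rwa [h1] at hpm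
  have hXkp : PX k l (k * p) :=
    px_mul (by omega) (px_one l (self_ks (by omega) 1)) hXp (hnk p (by omega))
  have hpk : p ≤ k * p := Nat.le_mul_of_pos_left _ (by omega)
  have hXM : PX k l (2 ^ n * (k * p)) := px_mul h2n hX2 hXkp (hn2 _ (by omega))
  have hpM : k * p ≤ 2 ^ n * (k * p) := Nat.le_mul_of_pos_left _ (by omega)
  refine ⟨2 ^ n * (k * p), by omega, hXM, fun v hv hdv _ => ?_⟩
  refine solve_u (by omega) hw hv ?_
  rw [← Nat.mul_assoc]
  exact hpg.trans (hxv v hdv)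

end Pool.Agent.Helper69.QD
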