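import Pool.Agent.Helper69.QD.Core
import Pool.Agent.Helper69.QD.ChB
import Pool.Agent.Helper69.QC.T3

/-!
Project QD: the sharp theorem for fixed block size and concurrence.
-/

set_option autoImplicit false

namespace Pool.Agent.Helper69.QD

open Pool.Agent.Helper69.WV Pool.Agent.Helper53.BN Pool.Agent.Helper69.QB Pool.Agent.Helper69.QC

theorem adm_of_mul {k l v : ℕ} (hk : 1 ≤ k) (h : k - 1 ∣ l * (v - 1)) : Adm k l v := by
  rcases Nat.even_or_odd k with h1 | h1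
  · exact Or.inl h1
  · have h2 : Even (k - 1) := h1.tsub_odd odd_one
    exact Or.inr (even_iff_two_dvd.2 ((even_iff_two_dvd.1 h2).trans h))

/-- For the orders `v` with `k - 1 ∣ l (v - 1)`: every number of blocks above the lower bound plus a
constant. -/
theorem low (k l : ℕ) (hk : 3 ≤ k) (hl : 2 ≤ l) : ∃ C v₀ : ℕ, ∀ v, v₀ ≤ v → k - 1 ∣ l * (v - 1) →
    ∀ b : ℕ, (l : ℝ) / (C2 k : ℝ) * ((C2 v : ℕ) : ℝ) + C ≤ b →
    (b : ℝ) ≤ beta k l * ((C2 v : ℕ) : ℝ) - C * v → NB k l v b := by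
  obtain ⟨m, s0, s1, hmp, hm3, hmK, hs0, hs1, hs01, he0, he1⟩ := perfect_pair k l hk hl 3
  obtain ⟨nk, hnk⟩ := hTD k
  obtain ⟨q, hqp, hqB, hqE, -, hqK, hqR, hqR1, n1, hn1⟩ := rs_one m hmp.two_le 2 (nk + 3) two_pos
  set w : ℕ := q - 1 with hw
  have hw0 : 0 < w := by omega
  have hwe : Even w := even_iff_two_dvd.2 hqE
  have hwK : w + 1 ∈ KS m 1 := by
    have : w + 1 = q := by omega
    rwa [this]
  obtain ⟨nw, hnw⟩ := hTD (w + 1)
  have hTw : TD k w := hnk w (by omega)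
  obtain ⟨MA, hMA, hMAX, hMAu⟩ := choose_A k l w (nw + 2) hk (by omega) hw0
  obtain ⟨CA, vA, hA⟩ := t2core k l hk hl hmp hmK hs0 hs1 hs01 he0 hw0 hwe hwK hTw hn1
    (by omega : 2 ≤ MA) hMAX (hnw MA (by omega))
  have hB : ∃ CB vB : ℕ, Odd k → ∀ v, vB ≤ v → Adm k l v → Even v → k - 1 ∣ l * (v - 1) →
      ∀ b : ℕ, (l : ℝ) / (C2 k : ℝ) * ((C2 v : ℕ) : ℝ) + CB ≤ b →
      (b : ℝ) ≤ beta k l * ((C2 v : ℕ) : ℝ) - CB * v → NB k l v b := by
    by_cases hko : Odd k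
    · obtain ⟨MB, hMB, hMBX, hMBu⟩ := choose_B k l w (nw + 2) hk hko (by omega) hw0
      obtain ⟨CB, vB, hB⟩ := t2core k l hk hl hmp hmK hs0 hs1 hs01 he0 hw0 hwe hwK hTw hn1
        (by omega : 2 ≤ MB) hMBX (hnw MB (by omega))
      exact ⟨CB, vB + 1, fun _ v hv hadm hve hkv =>
        hB v (by omega) hadm (hMBu v (by omega) hkv hve)⟩
    · exact ⟨0, 0, fun h => absurd h hko⟩
  obtain ⟨CB, vB, hB⟩ := hB
  refine ⟨max CA CB, max vA vB + 1, fun v hv hkv b hb1 hb2 => ?_⟩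
  have hadm : Adm k l v := adm_of_mul (by omega) hkv
  have hv0 : (0 : ℝ) ≤ v := Nat.cast_nonneg _
  have hCA : (CA : ℝ) ≤ (max CA CB : ℕ) := by exact_mod_cast le_max_left _ _
  have hCB : (CB : ℝ) ≤ (max CA CB : ℕ) := by exact_mod_cast le_max_right _ _
  have hCAv := mul_le_mul_of_nonneg_right hCA hv0
  have hCBv := mul_le_mul_of_nonneg_right hCB hv0
  by_cases h : Even k ∨ Odd v
  · exact hA v (by omega) hadm (hMAu v (by omega) hkv h) b (by linarith) (by linarith)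
  · rw [not_or, Nat.not_even_iff_odd, Nat.not_odd_iff_even] at h
    exact hB h.1 v (by omega) hadm h.2 hkv b (by linarith) (by linarith)

/-- The error at the lower end. -/
def e0 (k l v : ℕ) : ℕ := if k - 1 ∣ l * (v - 1) then 1 else v

/-- The error at the upper end. -/
def e1 (k l v : ℕ) : ℕ := if k - 1 ∣ l then 1 else v

/-- The theorem for fixed block size and concurrence. -/
theorem sharp (k l : ℕ) (hk : 3 ≤ k) (hl : 2 ≤ l) : ∃ C v₀ : ℕ, ∀ v, v₀ ≤ v → Adm k l v →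
    ∀ b : ℕ, (l : ℝ) / (C2 k : ℝ) * ((C2 v : ℕ) : ℝ) + C * e0 k l v ≤ b →
    (b : ℝ) ≤ beta k l * ((C2 v : ℕ) : ℝ) - C * e1 k l v → NB k l v b := by
  obtain ⟨A1, v1, h1⟩ := fixed_sharp k l hk hl
  obtain ⟨A2, v2, h2⟩ := low k l hk hl
  have hlt := lt_beta k l hk hl
  obtain ⟨n0, hn0⟩ := quad ((beta k l - (l : ℝ) / (C2 k : ℝ)) / 2)
    ((beta k l - (l : ℝ) / (C2 k : ℝ)) / 2 + A1 + A2) 0 (by linarith)
  refine ⟨max A1 A2, max n0 (max v1 v2) + 1, fun v hv hadm b hb1 hb2 => ?_⟩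
  have hvr : (1 : ℝ) ≤ v := by
    have : 1 ≤ v := by omega
    exact_mod_cast this
  have hA1 : (A1 : ℝ) ≤ (max A1 A2 : ℕ) := by exact_mod_cast le_max_left _ _
  have hA2 : (A2 : ℝ) ≤ (max A1 A2 : ℕ) := by exact_mod_cast le_max_right _ _
  have hA10 : (0 : ℝ) ≤ A1 := Nat.cast_nonneg _
  have hA1v := mul_le_mul_of_nonneg_right hA1 (by linarith : (0 : ℝ) ≤ v)
  have hA2v := mul_le_mul_of_nonneg_right hA2 (by linarith : (0 : ℝ) ≤ v)
  have hA11 : (A1 : ℝ) ≤ A1 * v := le_mul_of_one_le_right hA10 hvr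
  -- the upper end for `fixed_sharp`
  have hup : (b : ℝ) ≤ beta k l * ((C2 v : ℕ) : ℝ) - err1 k l v A1 := by
    refine hb2.trans ?_
    unfold err1 e1
    split_ifs
    · rw [Nat.cast_one, mul_one]
      linarith
    · rw [Nat.cast_mul]
      linarith
  by_cases hkv : k - 1 ∣ l * (v - 1)
  · rw [e0, if_pos hkv, Nat.cast_one, mul_one] at hb1
    by_cases hbig : (l : ℝ) / (C2 k : ℝ) * ((C2 v : ℕ) : ℝ) + A1 * v ≤ b
    · refine h1 v (by omega) hadm b (le_trans ?_ hbig) hup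
      unfold err0
      split_ifs
      · linarith
      · rw [Nat.cast_mul]
    · have hq := hn0 v (by omega)
      have hC := C2_cast v
      refine h2 v (by omega) hkv b (by linarith) ?_
      have hb' := (not_le.1 hbig).le
      nlinarith
  · rw [e0, if_neg hkv] at hb1
    refine h1 v (by omega) hadm b (le_trans ?_ hb1) hup
    unfold err0
    split_ifs
    · linarith
    · rw [Nat.cast_mul]
      linarith

end Pool.Agent.Helper69.QD
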