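import Pool.Agent.Helper69.QD.NumA

/-!
Project QD, piece NB: primes `p` for which `gcd (a p - 1, w)` is small.
-/

set_option autoImplicit false

namespace Pool.Agent.Helper69.QD

/-- Proof. Let `a - 1 = κ A`. `coprime_value` with the forms `1 + κ c s` and `A + a c s` and `W = w`:
for a prime `r ≥ 3` use `two_forms` (if `r ∣ A` and `r ∣ a c` then `r ∣ a` (`r ∣ c` implies `r ∣ a`) and
`r ∣ a - 1`, a contradiction; `r ∣ 1` is impossible); for `r = 2`: the first form is odd (`κ c` is
even); if `a` is even then `A` is odd and `s = 0` is possible; if `a` is odd then `c` is odd (otherwise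
`2 ∣ a`), so `A + a c s` is odd for `s = 0` or `s = 1`. Let `s` be as in `coprime_value`. By Dirichlet
(`Nat.forall_exists_prime_gt_and_modEq`) there is a prime `p > B` with
`p = 1 + κ c s mod κ c w`. Then `a p - 1 = κ (A + a c s) mod w`, and `gcd (κ x, w) ∣ κ` if `x` is prime
to `w`. -/
theorem good_prime {a c κ w : ℕ} (ha : 1 ≤ a) (hκ : 0 < κ) (hc : 0 < c) (hw : 0 < w)
    (hκa : κ ∣ a - 1) (heven : Even (κ * c)) (hca : ∀ r, r.Prime → r ∣ c → r ∣ a) (B : ℕ) :
    ∃ p, p.Prime ∧ B < p ∧ p ≡ 1 [MOD κ * c] ∧ Nat.gcd (a * p - 1) w ∣ κ := by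
  obtain ⟨A, hA⟩ := hκa
  have haA : a = κ * A + 1 := by omega
  have hval : ∃ s, Nat.Coprime ((1 + κ * c * s) * (A + a * c * s)) w := by
    refine coprime_value hw fun r hr _ => ?_
    rcases Nat.lt_or_ge r 3 with h3 | h3
    · have hr2 : r = 2 := by
        have := hr.two_le
        omega
      subst hr2
      have h1 : ∀ s, ¬ 2 ∣ 1 + κ * c * s := fun s hs => by
        have h2 : 2 ∣ κ * c * s := Dvd.dvd.mul_right heven.two_dvd s
        have := (Nat.dvd_add_left h2).1 hs
        omega
      by_cases hae : 2 ∣ a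
      · refine ⟨0, fun hd => ?_⟩
        rcases (Nat.Prime.dvd_mul Nat.prime_two).1 hd with hd | hd
        · exact h1 0 hd
        · rw [Nat.mul_zero, Nat.add_zero] at hd
          have h4 : 2 ∣ κ * A := Dvd.dvd.mul_left hd κ
          omega
      · have hc2 : ¬ 2 ∣ c := fun h => hae (hca 2 Nat.prime_two h)
        have hac : ¬ 2 ∣ a * c := fun h => ((Nat.Prime.dvd_mul Nat.prime_two).1 h).elim hae hc2
        by_cases hA2 : 2 ∣ A
        · refine ⟨1, fun hd => ?_⟩
          rcases (Nat.Prime.dvd_mul Nat.prime_two).1 hd with hd | hd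
          · exact h1 1 hd
          · rw [Nat.mul_one] at hd
            exact hac ((Nat.dvd_add_right hA2).1 hd)
        · refine ⟨0, fun hd => ?_⟩
          rcases (Nat.Prime.dvd_mul Nat.prime_two).1 hd with hd | hd
          · exact h1 0 hd
          · rw [Nat.mul_zero, Nat.add_zero] at hd
            exact hA2 hd
    · refine two_forms hr h3 (fun h => ?_) fun h => ?_
      · exact hr.one_lt.ne' (Nat.dvd_one.1 h.1)
      · have hra : r ∣ a := by
          rcases (Nat.Prime.dvd_mul hr).1 h.2 with h' | h'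
          · exact h'
          · exact hca r hr h'
        have h4 : r ∣ κ * A := Dvd.dvd.mul_left h.1 κ
        rw [haA] at hra
        exact hr.one_lt.ne' (Nat.dvd_one.1 ((Nat.dvd_add_right h4).1 hra))
  obtain ⟨s, hs⟩ := hval
  have hs1 : Nat.Coprime (1 + κ * c * s) w := Nat.Coprime.coprime_mul_right hs
  have hs2 : Nat.Coprime (A + a * c * s) w := Nat.Coprime.coprime_mul_left hs
  have hs3 : Nat.Coprime (1 + κ * c * s) (κ * c) := by
    rw [Nat.coprime_add_mul_left_left]
    exact Nat.coprime_one_left _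
  have hq : κ * c * w ≠ 0 := by positivity
  obtain ⟨p, hpB, hp, hpm⟩ := Nat.forall_exists_prime_gt_and_modEq B hq
    (Nat.Coprime.mul_right hs3 hs1)
  refine ⟨p, hp, hpB, ?_, ?_⟩
  · have h1 : p ≡ 1 + κ * c * s [MOD κ * c] := hpm.of_mul_right w
    refine h1.trans ?_
    simp
  · have h1 : p ≡ 1 + κ * c * s [MOD w] := hpm.of_mul_left (κ * c)
    have h2 : a * p ≡ κ * (A + a * c * s) + 1 [MOD w] := by
      have h3 := h1.mul_left a
      have h4 : a * (1 + κ * c * s) = κ * (A + a * c * s) + 1 := by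
        have h5 : a * (1 + κ * c * s) = a + κ * (a * c * s) := by ring
        rw [h5]
        nth_rewrite 1 [haA]
        ring
      rwa [h4] at h3
    have hap : 1 ≤ a * p := Nat.mul_pos ha hp.pos
    have h6 : a * p - 1 ≡ κ * (A + a * c * s) [MOD w] := by
      refine Nat.ModEq.add_right_cancel' 1 ?_
      rwa [Nat.sub_add_cancel hap]
    rw [h6.gcd_eq]
    have h7 : Nat.Coprime (Nat.gcd (κ * (A + a * c * s)) w) (A + a * c * s) :=
      Nat.Coprime.coprime_dvd_left (Nat.gcd_dvd_right _ _) hs2.symm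
    exact h7.dvd_of_dvd_mul_right (Nat.gcd_dvd_left _ _)

end Pool.Agent.Helper69.QD
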