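import Pool.Agent.Helper69.WV.MeetsAll

/-!
Project QD, piece SO: a linear congruence.
-/

set_option autoImplicit false

namespace Pool.Agent.Helper69.QD

open Pool.Agent.Helper69.WV

/-- If `gcd (M - 1, w) ∣ v - 1` then `(M - 1) u + 1 = v` can be solved modulo `M w`
(`gcd (M - 1, M w) = gcd (M - 1, w)`; `meetsAll_div` of `Helper69/WV/MeetsAll.lean`:
`0 < N → Coprime m N → ∃ x, m * x ≡ g [MOD N]`, after division by the gcd; or
`Nat.exists_mul_emod_eq...`). -/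
theorem solve_u {M w v : ℕ} (hM : 0 < M) (hw : 0 < w) (hv : 0 < v)
    (h : Nat.gcd (M - 1) w ∣ v - 1) : ∃ u, (M - 1) * u + 1 ≡ v [MOD M * w] := by
  have hc : Nat.Coprime M (M - 1) := by
    obtain ⟨m, rfl⟩ : ∃ m, M = m + 1 := ⟨M - 1, by omega⟩
    simp
  have hg : Nat.gcd (M - 1) (M * w) = Nat.gcd (M - 1) w :=
    Nat.Coprime.gcd_mul_left_cancel_right w hc
  rw [← hg] at h
  obtain ⟨t, ht⟩ := h
  have hN : (0 : ℤ) < ((M * w : ℕ) : ℤ) := by exact_mod_cast Nat.mul_pos hM hw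
  have bez := Nat.gcd_eq_gcd_ab (M - 1) (M * w)
  set N : ℤ := ((M * w : ℕ) : ℤ) with hNd
  set A : ℤ := Nat.gcdA (M - 1) (M * w) with hA
  set B : ℤ := Nat.gcdB (M - 1) (M * w) with hB
  have hu : (((A * t) % N).toNat : ℤ) = (A * t) % N :=
    Int.toNat_of_nonneg (Int.emod_nonneg _ hN.ne')
  refine ⟨((A * t) % N).toNat, ?_⟩
  rw [Nat.modEq_iff_dvd]
  have hv' : (v : ℤ) = ((Nat.gcd (M - 1) (M * w) : ℕ) : ℤ) * t + 1 := by
    have h1 : v = Nat.gcd (M - 1) (M * w) * t + 1 := by omega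
    exact_mod_cast h1
  refine ⟨B * t + ((M - 1 : ℕ) : ℤ) * ((A * t) / N), ?_⟩
  have hd : A * t % N = A * t - N * (A * t / N) := by
    have := Int.emod_add_mul_ediv (A * t) N
    linarith
  rw [Nat.cast_add, Nat.cast_mul, hu, hd, hv', bez, Nat.cast_one]
  ring

end Pool.Agent.Helper69.QD
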