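import Pool.Agent.Helper69.QD.PXb
import Pool.Agent.Helper69.QD.NumB
import Pool.Agent.Helper69.QD.Solve

/-!
Project QD, piece CA: the choice of the order `M` of a 2-design, first case.
-/

set_option autoImplicit false

namespace Pool.Agent.Helper69.QD

open Pool.Agent.Helper69.WV Pool.Agent.Helper53.BN Pool.Agent.Helper69.QB Pool.Agent.Helper69.QC

/-- If `k - 1 ∣ l (v - 1)` then `(k - 1) / gcd (k - 1, l) ∣ v - 1`; the general form. -/
theorem dvd_aux {y l x : ℕ} (hy : 0 < y) (h : y ∣ l * x) : y / Nat.gcd y l ∣ x := by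
  have hg : 0 < Nat.gcd y l := Nat.gcd_pos_of_pos_left l hy
  have hc : Nat.Coprime (y / Nat.gcd y l) (l / Nat.gcd y l) := Nat.coprime_div_gcd_div_gcd hg
  refine hc.dvd_of_dvd_mul_left ?_
  obtain ⟨y', hy'⟩ := Nat.gcd_dvd_left y l
  obtain ⟨l', hl'⟩ := Nat.gcd_dvd_right y l
  have h1 : y / Nat.gcd y l = y' := Nat.div_eq_of_eq_mul_right hg hy'
  have h2 : l / Nat.gcd y l = l' := Nat.div_eq_of_eq_mul_right hg hl'
  rw [h1, h2]
  have h3 : Nat.gcd y l * y' ∣ Nat.gcd y l * (l' * x) := by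
    rw [← hy', ← mul_assoc, ← hl']
    exact h
  exact Nat.dvd_of_mul_dvd_mul_left hg h3

private theorem ChA_core {k l w B κ g h e : ℕ} (hk : 3 ≤ k) (hw : 0 < w) (hl : l = g * h)
    (hC : k * (k - 1) / 2 = g * e) (h2e : 2 * e = κ * k) (hκ : 0 < κ) (hκk : κ ∣ k - 1) :
    ∃ M, B ≤ M ∧ 0 < M ∧ PX k l M ∧ Nat.gcd (M - 1) w ∣ κ := by
  obtain ⟨q0, hq0⟩ := px_prime (by omega : 2 ≤ k) hl hC
  obtain ⟨n0, hn0⟩ := hTD (k + 1)
  have heven : Even (κ * k) := by
    rw [← h2e]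
    exact even_two_mul e
  obtain ⟨p, hp, hpB, hpm, hpg⟩ := good_prime (a := k) (c := k) (κ := κ) (w := w) (by omega) hκ
    (by omega) hw hκk heven (fun r _ h => h) (max (max q0 n0) B)
  have hp1 : q0 ≤ p := ((le_max_left q0 n0).trans (le_max_left _ B)).trans hpB.le
  have hp2 : n0 ≤ p := ((le_max_right q0 n0).trans (le_max_left _ B)).trans hpB.le
  have hp3 : B ≤ p := (le_max_right _ B).trans hpB.le
  refine ⟨k * p, hp3.trans (Nat.le_mul_of_pos_left p (by omega)), Nat.mul_pos (by omega) hp.pos,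
    ?_, hpg⟩
  refine px_mul (by omega) (px_one l (self_ks (by omega) 1)) (hq0 p hp hp1 ?_) (hn0 p hp2)
  rw [h2e]
  exact hpm

/-- Proof. `k` even: `g = gcd (k - 1, l)`, `κ = (k - 1) / g`, `e = (k / 2) κ`, so `2 e = κ k`.
`k` odd: `y = (k - 1) / 2`, `g = gcd (y, l)`, `κ = 2 (y / g)`, `e = k (y / g)`, so `2 e = κ k`.
In both cases `l = g h`, `k (k - 1) / 2 = g e`, `κ ∣ k - 1`, and `κ ∣ v - 1` for all `v` in
question (`dvd_aux`; in the second case for `y ∣ l ((v - 1) / 2)`). `good_prime` with `a = c = k` gives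
a large prime `p = 1 mod κ k` with `gcd (k p - 1, w) ∣ κ`; `M = k p`; `PX k l p` by `px_prime`,
`PX k l k` by `px_one` and `self_ks`, `PX k l M` by `px_mul` (`hTD (k + 1)`); `solve_u`. -/
theorem choose_A (k l w B : ℕ) (hk : 3 ≤ k) (hl : 1 ≤ l) (hw : 0 < w) :
    ∃ M, B ≤ M ∧ PX k l M ∧ ∀ v, 0 < v → k - 1 ∣ l * (v - 1) → (Even k ∨ Odd v) →
      ∃ u, (M - 1) * u + 1 ≡ v [MOD M * w] := by
  rcases Nat.even_or_odd k with hke | hko
  · obtain ⟨m, hm⟩ := hke
    have hy : 0 < k - 1 := by omega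
    have hg : 0 < Nat.gcd (k - 1) l := Nat.gcd_pos_of_pos_left l hy
    obtain ⟨κ, hκ⟩ := Nat.gcd_dvd_left (k - 1) l
    obtain ⟨h, hh⟩ := Nat.gcd_dvd_right (k - 1) l
    have h1 : (k - 1) / Nat.gcd (k - 1) l = κ := Nat.div_eq_of_eq_mul_right hg hκ
    have hκ0 : 0 < κ := by
      rcases Nat.eq_zero_or_pos κ with h0 | h0
      · rw [h0, mul_zero] at hκ
        omega
      · exact h0
    have hC : k * (k - 1) / 2 = Nat.gcd (k - 1) l * (m * κ) := by
      have h2 : k * (k - 1) = 2 * (m * (k - 1)) := by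
        rw [show k * (k - 1) = (m + m) * (k - 1) by rw [← hm]]
        ring
      rw [h2, Nat.mul_div_cancel_left _ (by norm_num)]
      calc m * (k - 1) = m * (Nat.gcd (k - 1) l * κ) := by rw [← hκ]
        _ = Nat.gcd (k - 1) l * (m * κ) := by ring
    obtain ⟨M, hM1, hM2, hM3, hM4⟩ := ChA_core (B := B) hk hw hh hC
      (show 2 * (m * κ) = κ * k by rw [hm]; ring) hκ0 ⟨_, hκ.trans (mul_comm _ _)⟩
    refine ⟨M, hM1, hM3, fun v hv hd _ => solve_u hM2 hw hv (hM4.trans ?_)⟩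
    rw [← h1]
    exact dvd_aux hy hd
  · obtain ⟨y, hy⟩ := hko
    have hk1 : k - 1 = 2 * y := by omega
    have hy0 : 0 < y := by omega
    have hg : 0 < Nat.gcd y l := Nat.gcd_pos_of_pos_left l hy0
    obtain ⟨t, ht⟩ := Nat.gcd_dvd_left y l
    obtain ⟨h, hh⟩ := Nat.gcd_dvd_right y l
    have h1 : y / Nat.gcd y l = t := Nat.div_eq_of_eq_mul_right hg ht
    have ht0 : 0 < t := by
      rcases Nat.eq_zero_or_pos t with h0 | h0
      · rw [h0, mul_zero] at ht
        omega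
      · exact h0
    have hC : k * (k - 1) / 2 = Nat.gcd y l * (k * t) := by
      have h2 : k * (k - 1) = 2 * (k * y) := by
        rw [hk1]
        ring
      rw [h2, Nat.mul_div_cancel_left _ (by norm_num)]
      calc k * y = k * (Nat.gcd y l * t) := by rw [← ht]
        _ = Nat.gcd y l * (k * t) := by ring
    have hκk : 2 * t ∣ k - 1 := by
      rw [hk1]
      exact Nat.mul_dvd_mul_left 2 ⟨_, ht.trans (mul_comm _ _)⟩
    obtain ⟨M, hM1, hM2, hM3, hM4⟩ := ChA_core (B := B) hk hw hh hC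
      (show 2 * (k * t) = 2 * t * k by ring) (by omega) hκk
    refine ⟨M, hM1, hM3, fun v hv hd hv2 => solve_u hM2 hw hv (hM4.trans ?_)⟩
    have hvo : Odd v := by
      rcases hv2 with h2 | h2
      · exfalso
        obtain ⟨m, hm⟩ := h2
        omega
      · exact h2
    obtain ⟨x, hx⟩ := hvo
    have hx1 : v - 1 = 2 * x := by omega
    rw [hx1]
    refine Nat.mul_dvd_mul_left 2 ?_
    rw [← h1]
    refine dvd_aux hy0 ?_
    rw [hk1, hx1] at hd
    have h3 : 2 * y ∣ 2 * (l * x) := by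
      have h4 : l * (2 * x) = 2 * (l * x) := by ring
      rwa [h4] at hd
    exact Nat.dvd_of_mul_dvd_mul_left (by norm_num) h3

end Pool.Agent.Helper69.QD
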