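import Pool.Agent.Helper53.BN.Glue

/-!
Project QD, piece HC: transversal designs without one point, with the number of blocks.
-/

set_option autoImplicit false

namespace Pool.Agent.Helper69.QD

open Pool.Agent.Helper69.WV Pool.Agent.Helper53.BN

/-- The point set of a transversal design with `w + 1` groups without the point `(last, z)`. -/
private abbrev HoleC_Pt (w t : ℕ) (z : Fin t) : Type :=
  {p : Fin (w + 1) × Fin t // p ≠ (Fin.last w, z)}

/-- The block set: rows which miss the point, and the columns except the last one. -/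
private abbrev HoleC_Bl (w t : ℕ) (z : Fin t) (C : Set (Fin (w + 1) → Fin t)) : Type :=
  {f : Fin (w + 1) → Fin t // f ∈ C ∧ f (Fin.last w) ≠ z} ⊕ Fin w

private def HoleC_W (w t : ℕ) (z : Fin t) (C : Set (Fin (w + 1) → Fin t)) :
    HoleC_Bl w t z C → Type
  | Sum.inl _ => Fin (w + 1)
  | Sum.inr _ => Fin t

private theorem HoleC_ne1 {w t : ℕ} {z : Fin t} (f : Fin (w + 1) → Fin t)
    (hf : f (Fin.last w) ≠ z) (i : Fin (w + 1)) : (i, f i) ≠ (Fin.last w, z) := by
  intro h
  rw [Prod.mk.injEq] at h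
  obtain ⟨h1, h2⟩ := h
  subst h1
  exact hf h2

private theorem HoleC_ne2 {w t : ℕ} {z : Fin t} (i : Fin w) (a : Fin t) :
    (Fin.castSucc i, a) ≠ (Fin.last w, z) := by
  intro h
  rw [Prod.mk.injEq] at h
  exact (Fin.castSucc_lt_last i).ne h.1

private def HoleC_E (w t : ℕ) (z : Fin t) (C : Set (Fin (w + 1) → Fin t)) :
    ∀ b : HoleC_Bl w t z C, HoleC_W w t z C b → HoleC_Pt w t z
  | Sum.inl f => fun i : Fin (w + 1) => ⟨(i, f.1 i), HoleC_ne1 f.1 f.2.2 i⟩
  | Sum.inr i => fun a : Fin t => ⟨(Fin.castSucc i, a), HoleC_ne2 i a⟩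

private def HoleC_c (w t c1 c2 : ℕ) (z : Fin t) (C : Set (Fin (w + 1) → Fin t)) :
    HoleC_Bl w t z C → ℕ
  | Sum.inl _ => c1
  | Sum.inr _ => c2

private theorem HoleC_core (k l w t c1 c2 : ℕ) (hw : NB k l (w + 1) c1) (ht : NB k l t c2)
    (z : Fin t) (C : Set (Fin (w + 1) → Fin t)) [Fintype (HoleC_Bl w t z C)]
    (hC : ∀ i j, i ≠ j → ∀ a b, ∃! f, f ∈ C ∧ f i = a ∧ f j = b)
    (γ : {p : Fin (w + 1) × Fin t // p ≠ (Fin.last w, z)} → Option (Fin (w + 1) → Fin t))
    (hγ1 : ∀ p, γ p = none ↔ p.1.1 = Fin.last w)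
    (hγ2 : ∀ p g, γ p = some g ↔
      (p.1.1 ≠ Fin.last w ∧ g ∈ C ∧ g p.1.1 = p.1.2 ∧ g (Fin.last w) = z)) :
    DC k l (∑ b, HoleC_c w t c1 c2 z C b) γ := by
  classical
  refine glueC (B := HoleC_Bl w t z C) (W := HoleC_W w t z C)
    (J := HoleC_W w t z C) (fun b => id) (HoleC_E w t z C) (HoleC_c w t c1 c2 z C) ?_ ?_ ?_ ?_
  · rintro (f | i)
    · intro (x : Fin (w + 1)) (y : Fin (w + 1)) hxy
      have h := congrArg (fun q => q.1.1) hxy
      exact h
    · intro (x : Fin t) (y : Fin t) hxy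
      have h := congrArg (fun q => q.1.2) hxy
      exact h
  · rintro (f | i)
    · exact hw
    · exact ht
  · rintro ⟨⟨i, a⟩, hia⟩ ⟨⟨j, b⟩, hjb⟩ hne
    by_cases hij : i = j
    · subst hij
      have hil : i ≠ Fin.last w := by
        intro h
        apply hne
        rw [(hγ1 ⟨(i, a), hia⟩).2 h, (hγ1 ⟨(i, b), hjb⟩).2 h]
      obtain ⟨i, rfl⟩ := Fin.exists_castSucc_eq.2 hil
      have hab : a ≠ b := by
        rintro rfl
        exact hne rfl
      refine ⟨Sum.inr i, ⟨a, b, rfl, rfl, hab⟩, ?_⟩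
      rintro (f | i') ⟨x', y', hx', hy', hxy⟩
      · exfalso
        apply hxy
        have h1 : x' = Fin.castSucc i := congrArg (fun q => q.1.1) hx'
        have h2 : y' = Fin.castSucc i := congrArg (fun q => q.1.1) hy'
        exact h1.trans h2.symm
      · have h1 : Fin.castSucc i' = Fin.castSucc i := congrArg (fun q => q.1.1) hx'
        rw [Fin.castSucc_injective w h1]
    · obtain ⟨f, ⟨hf, hfa, hfb⟩, huniq⟩ := hC i j hij a b
      have hfl : f (Fin.last w) ≠ z := by
        intro hfl
        by_cases hi : i = Fin.last w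
        · subst hi
          exact hia (by rw [← hfa, hfl])
        · by_cases hj : j = Fin.last w
          · subst hj
            exact hjb (by rw [← hfb, hfl])
          · apply hne
            rw [(hγ2 ⟨(i, a), hia⟩ f).2 ⟨hi, hf, hfa, hfl⟩,
              (hγ2 ⟨(j, b), hjb⟩ f).2 ⟨hj, hf, hfb, hfl⟩]
      refine ⟨Sum.inl ⟨f, hf, hfl⟩, ⟨i, j, ?_, ?_, hij⟩, ?_⟩
      · apply Subtype.ext
        change (i, f i) = (i, a)
        rw [hfa]
      · apply Subtype.ext
        change (j, f j) = (j, b)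
        rw [hfb]
      · rintro (g | i') ⟨x', y', hx', hy', hxy⟩
        · have h1 : x' = i := congrArg (fun q => q.1.1) hx'
          have h2 : y' = j := congrArg (fun q => q.1.1) hy'
          subst h1
          subst h2
          have h3 : g.1 x' = a := congrArg (fun q => q.1.2) hx'
          have h4 : g.1 y' = b := congrArg (fun q => q.1.2) hy'
          have h5 : g.1 = f := huniq g.1 ⟨g.2.1, h3, h4⟩
          congr 1
          exact Subtype.ext h5
        · exfalso
          apply hij
          have h1 : Fin.castSucc i' = i := congrArg (fun q => q.1.1) hx'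
          have h2 : Fin.castSucc i' = j := congrArg (fun q => q.1.1) hy'
          exact h1.symm.trans h2
  · rintro (f | i) x' y' hxy heq
    · change Fin (w + 1) at x' y'
      change x' ≠ y' at hxy
      cases hx : γ (HoleC_E w t z C (Sum.inl f) x') with
      | none =>
        rw [hx] at heq
        have h1 := (hγ1 _).1 hx
        have h2 := (hγ1 _).1 heq.symm
        exact hxy ((show x' = Fin.last w from h1).trans (show y' = Fin.last w from h2).symm)
      | some g =>
        rw [hx] at heq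
        obtain ⟨-, hg, hgx, hgl⟩ := (hγ2 _ g).1 hx
        obtain ⟨-, -, hgy, -⟩ := (hγ2 _ g).1 heq.symm
        change g x' = f.1 x' at hgx
        change g y' = f.1 y' at hgy
        obtain ⟨f', -, huniq⟩ := hC x' y' hxy (f.1 x') (f.1 y')
        have h1 := huniq g ⟨hg, hgx, hgy⟩
        have h2 := huniq f.1 ⟨f.2.1, rfl, rfl⟩
        apply f.2.2
        rw [h2, ← h1, hgl]
    · change Fin t at x' y'
      change x' ≠ y' at hxy
      cases hx : γ (HoleC_E w t z C (Sum.inr i) x') with
      | none =>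
        have h1 := (hγ1 _).1 hx
        exact (Fin.castSucc_lt_last i).ne h1
      | some g =>
        rw [hx] at heq
        obtain ⟨-, hg, hgx, hgl⟩ := (hγ2 _ g).1 hx
        obtain ⟨-, -, hgy, -⟩ := (hγ2 _ g).1 heq.symm
        change g (Fin.castSucc i) = x' at hgx
        change g (Fin.castSucc i) = y' at hgy
        exact hxy (hgx.symm.trans hgy)

private theorem HoleC_main {k l w t c1 c2 : ℕ} (hw0 : 0 < w) (hw : NB k l (w + 1) c1)
    (ht : NB k l t c2) (ht0 : 0 < t) (hT : TD (w + 1) t) :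
    DC k l ((t ^ 2 - t) * c1 + w * c2) (hol t w (t - 1)) := by
  classical
  obtain ⟨C, hC⟩ := hT
  obtain ⟨v, rfl⟩ : ∃ v, w = v + 1 := ⟨w - 1, by omega⟩
  · set z : Fin t := ⟨0, ht0⟩ with hz
    have h0l : (0 : Fin (v + 1 + 1)) ≠ Fin.last (v + 1) := by
      intro h
      have := congrArg Fin.val h
      simp at this
    choose row hrow hrowu using fun s : Fin t => hC 0 (Fin.last (v + 1)) h0l s z
    -- the rows through the point and `(i, a)`
    let γ : {p : Fin (v + 1 + 1) × Fin t // p ≠ (Fin.last (v + 1), z)} →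
        Option (Fin (v + 1 + 1) → Fin t) := fun p =>
      if h : p.1.1 = Fin.last (v + 1) then none
      else some (hC p.1.1 (Fin.last (v + 1)) h p.1.2 z).choose
    have hγ1 : ∀ p, γ p = none ↔ p.1.1 = Fin.last (v + 1) := by
      intro p
      by_cases h : p.1.1 = Fin.last (v + 1)
      · simp [γ, h]
      · simp [γ, h]
    have hγ2 : ∀ p g, γ p = some g ↔ (p.1.1 ≠ Fin.last (v + 1) ∧ g ∈ C ∧ g p.1.1 = p.1.2 ∧
        g (Fin.last (v + 1)) = z) := by
      intro p g
      by_cases h : p.1.1 = Fin.last (v + 1)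
      · simp [γ, h]
      · have hs := (hC p.1.1 (Fin.last (v + 1)) h p.1.2 z).choose_spec
        simp only [γ, h, dif_neg, not_false_iff, Option.some.injEq, ne_eq, true_and]
        constructor
        · rintro rfl
          exact hs.1
        · intro hg
          exact (hs.2 g hg).symm
    have hcard : Fintype.card {f : Fin (v + 1 + 1) → Fin t // f ∈ C ∧ f (Fin.last (v + 1)) ≠ z} =
        t ^ 2 - t := by
      have e1 : {f : Fin (v + 1 + 1) → Fin t // f ∈ C ∧ f (Fin.last (v + 1)) ≠ z} ≃
          Fin t × {a : Fin t // a ≠ z} := by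
        refine Equiv.ofBijective (fun f => (f.1 0, ⟨f.1 (Fin.last (v + 1)), f.2.2⟩)) ⟨?_, ?_⟩
        · intro f g h
          rw [Prod.mk.injEq, Subtype.mk.injEq] at h
          obtain ⟨h', -, hu⟩ := hC 0 (Fin.last (v + 1)) h0l (g.1 0) (g.1 (Fin.last (v + 1)))
          apply Subtype.ext
          rw [hu f.1 ⟨f.2.1, h.1, h.2⟩, hu g.1 ⟨g.2.1, rfl, rfl⟩]
        · rintro ⟨a, b, hb⟩
          obtain ⟨f, ⟨hf, hfa, hfb⟩, -⟩ := hC 0 (Fin.last (v + 1)) h0l a b
          refine ⟨⟨f, hf, hfb ▸ hb⟩, ?_⟩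
          rw [Prod.mk.injEq, Subtype.mk.injEq]
          exact ⟨hfa, hfb⟩
      rw [Fintype.card_congr e1, Fintype.card_prod, Fintype.card_fin, Fintype.card_subtype_compl,
        Fintype.card_fin, Fintype.card_subtype_eq, Nat.mul_sub, mul_one, sq]
    have hDD := HoleC_core k l (v + 1) t c1 c2 hw ht z C hC γ hγ1 hγ2
    have hsum : ∑ b, HoleC_c (v + 1) t c1 c2 z C b = (t ^ 2 - t) * c1 + (v + 1) * c2 := by
      rw [Fintype.sum_sum_type]
      congr 1
      · refine (Finset.sum_const c1).trans ?_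
        rw [smul_eq_mul, Finset.card_univ, ← hcard]
      · refine (Finset.sum_const c2).trans ?_
        rw [smul_eq_mul, Finset.card_univ, Fintype.card_fin]
    rw [hsum] at hDD
    have hpt1 : ∀ s : Fin t, ∀ i : Fin (v + 1),
        (Fin.castSucc i, row s (Fin.castSucc i)) ≠ (Fin.last (v + 1), z) :=
      fun s i => HoleC_ne2 i _
    have hpt2 : ∀ s : Fin (t - 1), (Fin.last (v + 1), (⟨s.1 + 1, by omega⟩ : Fin t)) ≠
        (Fin.last (v + 1), z) := by
      intro s h
      rw [Prod.mk.injEq] at h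
      have := congrArg Fin.val h.2
      simp [hz] at this
    let e0 : (Fin t × Fin (v + 1)) ⊕ Fin (t - 1) →
        {p : Fin (v + 1 + 1) × Fin t // p ≠ (Fin.last (v + 1), z)} :=
      Sum.elim (fun p => ⟨(Fin.castSucc p.2, row p.1 (Fin.castSucc p.2)), hpt1 p.1 p.2⟩)
        (fun s => ⟨(Fin.last (v + 1), ⟨s.1 + 1, by omega⟩), hpt2 s⟩)
    have hrowinj : ∀ s s' : Fin t, row s = row s' → s = s' := by
      intro s s' h
      rw [← (hrow s).2.1, ← (hrow s').2.1, h]
    have hrowi : ∀ (s s' : Fin t) (i : Fin (v + 1)),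
        row s (Fin.castSucc i) = row s' (Fin.castSucc i) → s = s' := by
      intro s s' i h
      apply hrowinj
      obtain ⟨f, -, hu⟩ := hC (Fin.castSucc i) (Fin.last (v + 1)) (Fin.castSucc_lt_last i).ne
        (row s (Fin.castSucc i)) z
      rw [hu (row s) ⟨(hrow s).1, rfl, (hrow s).2.2⟩,
        hu (row s') ⟨(hrow s').1, h.symm, (hrow s').2.2⟩]
    have hinj : Function.Injective e0 := by
      rintro (⟨s, i⟩ | s) (⟨s', i'⟩ | s') h
      · have h1 : Fin.castSucc i = Fin.castSucc i' := congrArg (fun q => q.1.1) h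
        have h2 : row s (Fin.castSucc i) = row s' (Fin.castSucc i') :=
          congrArg (fun q => q.1.2) h
        have h3 := Fin.castSucc_injective _ h1
        subst h3
        rw [hrowi s s' i h2]
      · have h1 : Fin.castSucc i = Fin.last (v + 1) := congrArg (fun q => q.1.1) h
        exact absurd h1 (Fin.castSucc_lt_last i).ne
      · have h1 : Fin.last (v + 1) = Fin.castSucc i' := congrArg (fun q => q.1.1) h
        exact absurd h1.symm (Fin.castSucc_lt_last i').ne
      · have h2 : (⟨s.1 + 1, by omega⟩ : Fin t) = ⟨s'.1 + 1, by omega⟩ :=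
          congrArg (fun q => q.1.2) h
        have h3 := congrArg Fin.val h2
        simp only [Nat.add_right_cancel_iff] at h3
        rw [Fin.ext h3]
    have hsurj : Function.Surjective e0 := by
      rintro ⟨⟨i, a⟩, hia⟩
      by_cases hi : i = Fin.last (v + 1)
      · subst hi
        have ha : a.1 ≠ 0 := by
          intro h
          apply hia
          rw [show a = z from Fin.ext h]
        refine ⟨Sum.inr ⟨a.1 - 1, by omega⟩, ?_⟩
        apply Subtype.ext
        change (Fin.last (v + 1), (⟨a.1 - 1 + 1, _⟩ : Fin t)) = (Fin.last (v + 1), a)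
        congr 1
        apply Fin.ext
        change a.1 - 1 + 1 = a.1
        omega
      · obtain ⟨i, rfl⟩ := Fin.exists_castSucc_eq.2 hi
        obtain ⟨f, ⟨hf, hfa, hfl⟩, -⟩ := hC (Fin.castSucc i) (Fin.last (v + 1)) hi a z
        refine ⟨Sum.inl (f 0, i), ?_⟩
        apply Subtype.ext
        change (Fin.castSucc i, row (f 0) (Fin.castSucc i)) = (Fin.castSucc i, a)
        rw [← hrowu (f 0) f ⟨hf, rfl, hfl⟩, hfa]
    refine hDD.congr (Equiv.ofBijective e0 ⟨hinj, hsurj⟩).symm ?_
    intro x y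
    obtain ⟨x, rfl⟩ := hsurj x
    obtain ⟨y, rfl⟩ := hsurj y
    have hx : (Equiv.ofBijective e0 ⟨hinj, hsurj⟩).symm (e0 x) = x :=
      (Equiv.ofBijective e0 ⟨hinj, hsurj⟩).symm_apply_apply x
    have hy : (Equiv.ofBijective e0 ⟨hinj, hsurj⟩).symm (e0 y) = y :=
      (Equiv.ofBijective e0 ⟨hinj, hsurj⟩).symm_apply_apply y
    rw [hx, hy]
    have hg1 : ∀ (s : Fin t) (i : Fin (v + 1)), γ (e0 (Sum.inl (s, i))) = some (row s) := by
      intro s i
      refine (hγ2 _ _).2 ⟨(Fin.castSucc_lt_last i).ne, (hrow s).1, rfl, (hrow s).2.2⟩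
    have hg2 : ∀ s : Fin (t - 1), γ (e0 (Sum.inr s)) = none := by
      intro s
      exact (hγ1 _).2 rfl
    rcases x with ⟨s, i⟩ | s <;> rcases y with ⟨s', i'⟩ | s'
    · rw [hg1, hg1]
      simp only [hol, Option.some.injEq, Sum.elim_inl]
      exact ⟨fun h => hrowinj s s' h, fun h => by rw [h]⟩
    · rw [hg1, hg2]
      simp [hol]
    · rw [hg1, hg2]
      simp [hol]
    · rw [hg2, hg2]
      simp [hol]

/-- `Helper69/WV/HoleGroup.lean` with the number of blocks: `glueC` instead of `glue`; the pieces are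
the `t ^ 2 - t` rows of the orthogonal array (with `w + 1` columns over `Fin t`) which do not contain
the removed point of the last column (each gets the design on `w + 1` points), and the first `w`
columns (each gets the design on `t` points). -/
theorem holeGroupC {k l w t c1 c2 : ℕ} (hw0 : 0 < w) (hw : NB k l (w + 1) c1)
    (ht : NB k l t c2) (ht0 : 0 < t) (hT : TD (w + 1) t) : DC k l ((t ^ 2 - t) * c1 + w * c2) (hol t w (t - 1)) :=
  HoleC_main hw0 hw ht ht0 hT

end Pool.Agent.Helper69.QD
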