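import Pool.Agent.Helper69.QC.Cnt
import Pool.Agent.Helper69.QC.Copies
import Pool.Agent.Helper69.QB.FeasDesign
import Pool.Agent.Helper53.BN.TF

/-!
Project QD, piece PX: orders for which the lower bound for the number of blocks is attained.
-/

set_option autoImplicit false

namespace Pool.Agent.Helper69.QD

open Pool.Agent.Helper69.WV Pool.Agent.Helper53.BN Pool.Agent.Helper69.QB Pool.Agent.Helper69.QC

/-- There is a design on `M` points whose number of blocks is the lower bound (a 2-design). -/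
def PX (k l M : ℕ) : Prop := ∃ c, NB k l M c ∧ c * (k * (k - 1)) = l * (M * (M - 1))

/-- `copies` and `count_nb`. -/
theorem px_one {k M : ℕ} (l : ℕ) (h : M ∈ KS k 1) : PX k l M := by
  obtain ⟨c, hc⟩ := nb_of_ks h
  refine ⟨l * c, copies hc l, ?_⟩
  rw [mul_assoc, count_nb hc]

/-- `tf0` with `clo = chi`, `i = 0`, `s = 0`: the number of blocks is `M' ^ 2 c + M c'`. -/
theorem px_mul {k l M M' : ℕ} (hM : 2 ≤ M) (h : PX k l M) (h' : PX k l M') (hT : TD (M + 1) M') :
    PX k l (M * M') := by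
  obtain ⟨c, hc, hc'⟩ := h
  obtain ⟨d, hd, hd'⟩ := h'
  have h1 := tf0 (i := 0) hM (Nat.zero_le 1) hT hc hc (Nat.zero_le _) (fun _ => d)
    (fun _ => hd)
  refine ⟨_, h1, ?_⟩
  rcases Nat.eq_zero_or_pos M' with h0 | h0
  · subst h0
    have h2 : d * (k * (k - 1)) = 0 := by simpa using hd'
    simp only [Finset.sum_const, Finset.card_univ, Fintype.card_fin, smul_eq_mul]
    have h3 : M * d * (k * (k - 1)) = 0 := by rw [mul_assoc, h2, mul_zero]
    simpa using h3
  · obtain ⟨m, rfl⟩ : ∃ m, M = m + 1 := ⟨M - 1, by omega⟩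
    obtain ⟨n, rfl⟩ : ∃ n, M' = n + 1 := ⟨M' - 1, by omega⟩
    simp only [Finset.sum_const, Finset.card_univ, Fintype.card_fin, smul_eq_mul, Nat.sub_zero,
      zero_mul, add_zero, Nat.add_sub_cancel] at hc' hd' ⊢
    have h2 : (m + 1) * (n + 1) - 1 = (n + 1) * m + n := by
      have : (m + 1) * (n + 1) = (n + 1) * m + n + 1 := by ring
      omega
    rw [h2]
    generalize k * (k - 1) = K at hc' hd' ⊢
    calc ((n + 1) * (n + 1) * c + (m + 1) * d) * K
        = (n + 1) * (n + 1) * (c * K) + (m + 1) * (d * K) := by ring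
      _ = (n + 1) * (n + 1) * (l * ((m + 1) * m)) + (m + 1) * (l * ((n + 1) * n)) := by
          rw [hc', hd']
      _ = l * ((m + 1) * (n + 1) * ((n + 1) * m + n)) := by ring

end Pool.Agent.Helper69.QD
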