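import Mathlib

/-!
Project QD, piece NA: a value of a product of two linear forms prime to a given number.
-/

set_option autoImplicit false

namespace Pool.Agent.Helper69.QD

/-- A form which vanishes modulo the prime `r ≥ 3` at two of the arguments `0`, `1`, `2` vanishes. -/
private theorem NumA_two {r a b s t : ℕ} (hr : r.Prime) (hr3 : 3 ≤ r) (hst : s < t) (ht : t ≤ 2)
    (h1 : r ∣ a + b * s) (h2 : r ∣ a + b * t) : r ∣ a ∧ r ∣ b := by
  have h3 : r ∣ b * (t - s) := by
    have e : a + b * t - (a + b * s) = b * (t - s) := by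
      rw [Nat.mul_sub]; omega
    rw [← e]
    exact Nat.dvd_sub h2 h1
  have h4 : r ∣ b := by
    rcases (hr.dvd_mul).mp h3 with h | h
    · exact h
    · exact absurd (Nat.le_of_dvd (by omega) h) (by omega)
  refine ⟨?_, h4⟩
  exact (Nat.dvd_add_left (h4.mul_right s)).mp h1

/-- Two linear forms which do not vanish identically modulo the prime `r ≥ 3` have a common argument
where both do not vanish (one of `0`, `1`, `2`). -/
theorem two_forms {r a b a' b' : ℕ} (hr : r.Prime) (hr3 : 3 ≤ r) (h : ¬ (r ∣ a ∧ r ∣ b))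
    (h' : ¬ (r ∣ a' ∧ r ∣ b')) : ∃ s, ¬ r ∣ (a + b * s) * (a' + b' * s) := by
  by_contra hc
  push Not at hc
  have k : ∀ s, r ∣ a + b * s ∨ r ∣ a' + b' * s := fun s => (hr.dvd_mul).mp (hc s)
  rcases k 0 with h0 | h0 <;> rcases k 1 with h1 | h1 <;> rcases k 2 with h2 | h2
  · exact h (NumA_two hr hr3 (by norm_num) (by norm_num) h0 h1)
  · exact h (NumA_two hr hr3 (by norm_num) (by norm_num) h0 h1)
  · exact h (NumA_two hr hr3 (by norm_num) (by norm_num) h0 h2)
  · exact h' (NumA_two hr hr3 (by norm_num) (by norm_num) h1 h2)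
  · exact h (NumA_two hr hr3 (by norm_num) (by norm_num) h1 h2)
  · exact h' (NumA_two hr hr3 (by norm_num) (by norm_num) h0 h2)
  · exact h' (NumA_two hr hr3 (by norm_num) (by norm_num) h0 h1)
  · exact h' (NumA_two hr hr3 (by norm_num) (by norm_num) h0 h1)

/-- Chinese remainder theorem for the primes dividing `W` (`Nat.chineseRemainderOfFinset` or
induction). -/
theorem coprime_value {a b a' b' W : ℕ} (hW : 0 < W)
    (h : ∀ r, r.Prime → r ∣ W → ∃ s, ¬ r ∣ (a + b * s) * (a' + b' * s)) :
    ∃ s, Nat.Coprime ((a + b * s) * (a' + b' * s)) W := by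
  classical
  let f : ℕ → ℕ := fun r => if hr : r.Prime ∧ r ∣ W then (h r hr.1 hr.2).choose else 0
  obtain ⟨s, hs⟩ := Nat.chineseRemainderOfFinset f id W.primeFactors
    (fun i hi => (Nat.prime_of_mem_primeFactors hi).ne_zero)
    (fun i hi j hj hij => (Nat.coprime_primes (Nat.prime_of_mem_primeFactors hi)
      (Nat.prime_of_mem_primeFactors hj)).mpr hij)
  refine ⟨s, Nat.coprime_of_dvd fun r hr hd hdW => ?_⟩
  have hmem : r ∈ W.primeFactors := Nat.mem_primeFactors.mpr ⟨hr, hdW, hW.ne'⟩
  have hcong : s ≡ f r [MOD r] := hs r hmem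
  have hf : f r = (h r hr hdW).choose := by simp only [f, dif_pos (And.intro hr hdW)]
  have hspec := (h r hr hdW).choose_spec
  rw [← hf] at hspec
  apply hspec
  have e : (a + b * s) * (a' + b' * s) ≡ (a + b * f r) * (a' + b' * f r) [MOD r] :=
    ((hcong.mul_left b).add_left a).mul ((hcong.mul_left b').add_left a')
  exact (e.dvd_iff dvd_rfl).mp hd

end Pool.Agent.Helper69.QD
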