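import Pool.Agent.Helper69.QD.PX

/-!
Project QD, piece PP: 2-designs on primes.
-/

set_option autoImplicit false

namespace Pool.Agent.Helper69.QD

open Pool.Agent.Helper69.WV Pool.Agent.Helper53.BN Pool.Agent.Helper69.QB Pool.Agent.Helper69.QC

private def PXb_one (n : ℕ) : n.Partition where
  parts := Multiset.replicate n 1
  parts_pos := by
    intro i hi
    rw [Multiset.eq_of_mem_replicate hi]
    exact Nat.one_pos
  parts_sum := by simp

private theorem PXb_w1 (n : ℕ) : weights (PXb_one n) = Multiset.replicate (n.choose 2) 1 := by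
  change ((Multiset.replicate n 1).powersetCard 2).map Multiset.prod = _
  rw [Multiset.eq_replicate]
  constructor
  · simp
  · intro b hb
    rw [Multiset.mem_map] at hb
    obtain ⟨t, ht, rfl⟩ := hb
    have h1 := (Multiset.mem_powersetCard.1 ht).1
    exact Multiset.prod_eq_one fun x hx =>
      Multiset.eq_of_mem_replicate (Multiset.mem_of_le h1 hx)

private theorem PXb_epos {k g e : ℕ} (hk : 2 ≤ k) (hC : k * (k - 1) / 2 = g * e) : 0 < e := by
  have h1 : 0 < k * (k - 1) / 2 := by
    rw [← Nat.choose_two_right]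
    exact Nat.choose_pos hk
  rw [hC] at h1
  exact Nat.pos_of_mul_pos_left h1

/-- The feasible point `z (1^k) = h`, `y (1^l) = e`, where `l = g h`, `k (k - 1) / 2 = g e`
(compare `feasible_one` in `QB/TsA.lean`). -/
theorem feasible_g {k l g h e : ℕ} (hk : 2 ≤ k) (hl : l = g * h) (hC : k * (k - 1) / 2 = g * e) :
    ∃ (z : k.Partition → ℕ) (y : l.Partition → ℕ), Feasible k l z y ∧ ∑ a, z a = h ∧
      ∑ p, y p = e := by
  classical
  have he : 0 < e := PXb_epos hk hC
  refine ⟨fun a => if a = PXb_one k then h else 0,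
    fun p => if p = PXb_one l then e else 0, ⟨?_, ?_, ?_⟩, ?_, ?_⟩
  · intro a ha
    dsimp only
    rw [if_neg]
    rintro rfl
    have h1 : Multiset.card (PXb_one k).parts = k := Multiset.card_replicate _ _
    omega
  · rw [Finset.sum_ite_eq' Finset.univ, if_pos (Finset.mem_univ _)]
    exact he
  · simp only [ite_smul, zero_smul]
    rw [Finset.sum_ite_eq' Finset.univ, if_pos (Finset.mem_univ _),
      Finset.sum_ite_eq' Finset.univ, if_pos (Finset.mem_univ _), PXb_w1]
    have h0 : (PXb_one l).parts = Multiset.replicate l 1 := rfl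
    rw [h0, Multiset.nsmul_replicate, Multiset.nsmul_replicate, Nat.choose_two_right, hC, hl]
    congr 1
    ring
  · rw [Finset.sum_ite_eq' Finset.univ, if_pos (Finset.mem_univ _)]
  · rw [Finset.sum_ite_eq' Finset.univ, if_pos (Finset.mem_univ _)]

/-- `feasible_primes` for `feasible_g`. -/
theorem px_prime {k l g h e : ℕ} (hk : 2 ≤ k) (hl : l = g * h) (hC : k * (k - 1) / 2 = g * e) :
    ∃ q0, ∀ q : ℕ, q.Prime → q0 ≤ q → q ≡ 1 [MOD 2 * e] → PX k l q := by
  obtain ⟨z, y, hF, hz, hy⟩ := feasible_g hk hl hC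
  obtain ⟨q0, hq0⟩ := feasible_primes hF
  refine ⟨q0, fun q hq hqq hmod => ?_⟩
  rw [hz, hy] at hq0
  refine ⟨_, hq0 q hq hqq hmod, ?_⟩
  have he : 0 < e := PXb_epos hk hC
  have h2 : k * (k - 1) = 2 * (g * e) := by
    have h3 : 2 ∣ k * (k - 1) := (Nat.even_mul_pred_self k).two_dvd
    omega
  have h4 : 2 * e ∣ q - 1 := (Nat.modEq_iff_dvd' hq.one_lt.le).1 hmod.symm
  obtain ⟨m, hm⟩ := h4
  rw [h2, hl, hm, Nat.mul_div_cancel_left m (by omega)]
  ring

end Pool.Agent.Helper69.QD
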